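import Mathlib

namespace Pool.Agent.Results.MP_ee84c2_an.LuccNotSucc

variable {𝕜 X : Type} [RCLike 𝕜] [NormedAddCommGroup X] [NormedSpace 𝕜 X]

/-- Semi-normalized, `M`-bounded, total biorthogonal system with dense span. -/
def IsBasis (x : ℕ → X) (x' : ℕ → X →L[𝕜] 𝕜) : Prop :=
  Dense (Submodule.span 𝕜 (Set.range x) : Set X) ∧
  (∀ k n, x' k (x n) = if k = n then 1 else 0) ∧ (∀ f, (∀ n, x' n f = 0) → f = 0) ∧
  (∃ c K : ℝ, 0 < c ∧ ∀ n, c ≤ ‖x n‖ ∧ ‖x n‖ ≤ K) ∧ ∃ M : ℝ, ∀ n, ‖x n‖ * ‖x' n‖ ≤ M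

/-- Suppression unconditional for constant coefficients. -/
def SUCC (𝕜 : Type) {X : Type} [RCLike 𝕜] [NormedAddCommGroup X] [NormedSpace 𝕜 X]
    (x : ℕ → X) : Prop :=
  ∃ C : ℝ, 1 ≤ C ∧ ∀ (A B : Finset ℕ) (ε : ℕ → 𝕜), B ⊆ A → (∀ n, ‖ε n‖ = 1) →
    ‖∑ n ∈ B, ε n • x n‖ ≤ C * ‖∑ n ∈ A, ε n • x n‖

/-- Lower unconditional for constant coefficients. -/
def LUCC (𝕜 : Type) {X : Type} [RCLike 𝕜] [NormedAddCommGroup X] [NormedSpace 𝕜 X]
    (x : ℕ → X) : Prop :=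
  ∃ C : ℝ, 1 ≤ C ∧ ∀ (A : Finset ℕ) (ε : ℕ → 𝕜) (a : ℕ → ℝ), (∀ n, ‖ε n‖ = 1) → (∀ n, 1 ≤ a n) →
    ‖∑ n ∈ A, ε n • x n‖ ≤ C * ‖∑ n ∈ A, (ε n * (a n : 𝕜)) • x n‖

variable (𝕜) in
noncomputable abbrev L := lp (fun _ : ℕ => 𝕜) 1

noncomputable def d (n : ℕ) : L 𝕜 := lp.single 1 n 1 - lp.single 1 (n + 1) 1

variable (𝕜) in
noncomputable def Y : Submodule 𝕜 (L 𝕜) := (Submodule.span 𝕜 (Set.range d)).topologicalClosure

noncomputable def e (n : ℕ) : Y 𝕜 :=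
  ⟨d n, Submodule.le_topologicalClosure _ (Submodule.subset_span ⟨n, rfl⟩)⟩

noncomputable def e' (n : ℕ) : Y 𝕜 →L[𝕜] 𝕜 :=
  (∑ k ∈ Finset.range (n + 1), lp.evalCLM 𝕜 (fun _ : ℕ => 𝕜) 1 k).comp (Y 𝕜).subtypeL

theorem e'_apply (n : ℕ) (y : Y 𝕜) : e' n y = ∑ k ∈ Finset.range (n + 1), y.1 k := by
  simp only [e', ContinuousLinearMap.comp_apply, sum_apply]; rfl

theorem d_apply (n k : ℕ) :
    (d n : L 𝕜) k = (if k = n then 1 else 0) - if k = n + 1 then 1 else 0 := by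
  simp only [d, lp.coeFn_sub, Pi.sub_apply, lp.single_apply, Pi.single_apply]

theorem sum_le (y : L 𝕜) (s : Finset ℕ) : ∑ k ∈ s, ‖y k‖ ≤ ‖y‖ := by
  simpa using lp.sum_rpow_le_norm_rpow (p := 1) (by simp) y s

theorem comb (A : Finset ℕ) (c : ℕ → 𝕜) (k : ℕ) : (∑ n ∈ A, c n • (e n : Y 𝕜)).1 k =
    (if k ∈ A then c k else 0) - if k ≠ 0 ∧ k - 1 ∈ A then c (k - 1) else 0 := by
  have : (∑ n ∈ A, c n • (e n : Y 𝕜)).1 k = ∑ n ∈ A, c n * (d n : L 𝕜) k := by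
    rw [Submodule.coe_sum, lp.coeFn_sum, Finset.sum_apply]; rfl
  rw [this]
  simp only [d_apply, mul_sub, Finset.sum_sub_distrib, mul_ite, mul_one, mul_zero,
    Finset.sum_ite_eq]
  cases k with
  | zero => simp
  | succ k => simp

theorem key (u v : 𝕜) (a b : ℝ) (hu : ‖u‖ = 1) (hv : ‖v‖ = 1) (ha : 1 ≤ a) (hb : 1 ≤ b) :
    ‖u - v‖ ≤ ‖u * a - v * b‖ := by
  refine le_of_sq_le_sq ?_ (norm_nonneg _)
  have h1 := re_inner_le_norm (𝕜 := 𝕜) u v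
  have h2 : RCLike.re (inner 𝕜 (u * a) (v * b)) = a * b * RCLike.re (inner 𝕜 u v) := by
    rw [mul_comm u, mul_comm v, ← smul_eq_mul, ← smul_eq_mul, inner_smul_left, inner_smul_right,
      RCLike.conj_ofReal, ← mul_assoc, ← RCLike.ofReal_mul, RCLike.re_ofReal_mul]
  rw [@norm_sub_sq 𝕜, @norm_sub_sq 𝕜, h2, norm_mul, norm_mul, hu, hv, RCLike.norm_ofReal,
    RCLike.norm_ofReal, one_mul, one_mul, sq_abs, sq_abs]
  rw [hu, hv] at h1
  have h3 : 1 ≤ a * b := one_le_mul_of_one_le_of_one_le ha hb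
  nlinarith [sq_nonneg (a - b), mul_nonneg (sub_nonneg.2 h3) (sub_nonneg.2 h1)]

theorem result (𝕜 : Type) [RCLike 𝕜] :
    ∃ (X : Type) (_ : NormedAddCommGroup X) (_ : NormedSpace 𝕜 X) (x : ℕ → X)
      (x' : ℕ → X →L[𝕜] 𝕜), CompleteSpace X ∧ IsBasis x x' ∧ LUCC 𝕜 x ∧ ¬ SUCC 𝕜 x := by
  have n2 : ∀ a b : ℕ, ‖(lp.single 1 a 1 - lp.single 1 b 1 : L 𝕜)‖ ≤ 2 := fun a b => by
    refine (norm_sub_le _ _).trans ?_
    rw [lp.norm_single (by simp), lp.norm_single (by simp)]; norm_num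
  refine ⟨Y 𝕜, inferInstance, inferInstance, e, e',
    (Submodule.isClosed_topologicalClosure _).completeSpace_coe,
    ⟨?_, fun k n => ?_, fun f hf => ?_, ⟨1, 2, one_pos, fun n => ⟨?_, n2 _ _⟩⟩, 2, fun n => ?_⟩,
    ⟨1, le_rfl, fun A ε a hε ha => ?_⟩, ?_⟩
  · refine Subtype.dense_iff.2 ?_
    have h := Submodule.map_span (Y 𝕜).subtype (Set.range e)
    rw [← Set.range_comp] at h
    exact subset_rfl.trans
      (congrArg closure (congrArg (fun s : Submodule 𝕜 (L 𝕜) => (s : Set (L 𝕜))) h)).ge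
  · rw [e'_apply]
    simp only [e, d_apply, Finset.sum_sub_distrib, Finset.sum_ite_eq', Finset.mem_range]
    split_ifs <;> first | omega | simp
  · refine Subtype.ext (lp.ext (funext fun k => ?_))
    have h := hf k
    rw [e'_apply, Finset.sum_range_succ] at h
    cases k with
    | zero => simpa using h
    | succ k => rw [← e'_apply, hf, zero_add] at h; exact h
  · have := sum_le (d n : L 𝕜) {n}
    change 1 ≤ ‖(d n : L 𝕜)‖
    simpa [d_apply] using this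
  · have : ‖(e' n : Y 𝕜 →L[𝕜] 𝕜)‖ ≤ 1 := ContinuousLinearMap.opNorm_le_bound _ zero_le_one fun y => by
      rw [e'_apply, one_mul]
      exact (norm_sum_le _ _).trans (sum_le y.1 _)
    exact (mul_le_mul (n2 _ _) this (ContinuousLinearMap.opNorm_nonneg _) zero_le_two).trans_eq (mul_one _)
  · rw [one_mul]
    refine lp.norm_le_of_forall_sum_le (p := 1) (by simp) (norm_nonneg _) fun s => ?_
    simp only [ENNReal.toReal_one, Real.rpow_one]
    refine le_trans (Finset.sum_le_sum fun k _ => ?_)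
      (sum_le (∑ n ∈ A, (ε n * (a n : 𝕜)) • (e n : Y 𝕜)).1 s)
    change ‖(∑ n ∈ A, ε n • (e n : Y 𝕜)).1 k‖ ≤ _
    rw [comb, comb A fun n => ε n * (a n : 𝕜)]
    have h1 : ∀ j, ‖ε j‖ ≤ ‖ε j * (a j : 𝕜)‖ := fun j => by
      rw [norm_mul, hε, RCLike.norm_ofReal, one_mul]; exact (ha j).trans (le_abs_self _)
    split_ifs
    · exact key _ _ _ _ (hε _) (hε _) (ha _) (ha _)
    · rw [sub_zero, sub_zero]; exact h1 _
    · rw [zero_sub, zero_sub, norm_neg, norm_neg]; exact h1 _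
    · exact le_rfl
  · rintro ⟨C, h3, hC⟩
    obtain ⟨N, hN⟩ := exists_nat_gt (C * 2)
    have h := hC (Finset.range (2 * N)) ((Finset.range N).image (2 * ·)) (fun _ => 1)
      (fun k hk => by
        obtain ⟨j, hj, rfl⟩ := Finset.mem_image.1 hk
        simp only [Finset.mem_range] at hj ⊢; omega) fun _ => norm_one
    have h1 : ‖∑ n ∈ Finset.range (2 * N), (1 : 𝕜) • (e n : Y 𝕜)‖ ≤ 2 := by
      change ‖(∑ n ∈ Finset.range (2 * N), (1 : 𝕜) • (e n : Y 𝕜)).1‖ ≤ 2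
      rw [Submodule.coe_sum]
      simp only [one_smul, e, d]
      rw [Finset.sum_range_sub' (fun n => (lp.single 1 n 1 : L 𝕜))]
      exact n2 _ _
    have h2 := sum_le (∑ n ∈ (Finset.range N).image (2 * ·), (1 : 𝕜) • (e n : Y 𝕜)).1
      ((Finset.range N).image (2 * ·))
    rw [Finset.sum_congr rfl (g := fun _ => (1 : ℝ)) fun k hk => by
      rw [comb _ fun _ => 1, if_pos hk, if_neg, sub_zero, norm_one]
      simp only [Finset.mem_image] at hk ⊢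
      rintro ⟨h0, j, -, hj⟩
      obtain ⟨i, -, hi⟩ := hk
      omega, Finset.sum_const, Finset.card_image_of_injective _ fun a b h => by omega,
      Finset.card_range, nsmul_eq_mul, mul_one] at h2
    have := h2.trans (h.trans (mul_le_mul_of_nonneg_left h1 (zero_le_one.trans h3)))
    linarith

end Pool.Agent.Results.MP_ee84c2_an.LuccNotSucc
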